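import Pool.Agent.T6.H37.AP.ThreeMain

/-!
# Progression-free sets in `F_p^n` and systems of polynomials of degree less than `p`

Let `p` be an odd prime and `d < p`. The degree `d` closure `cl d A` of `A ⊆ F_p^n` is the smallest
set containing `A` which is the set of common zeros of a system of polynomials of degree at most
`d` (with any number of equations). We prove:

1. Through all but at most `p ^ (n - q)` points of any set `A` there are at least
  `p ^ (n - C (q + 1))` directions of lines contained in `cl d A` (`C` depends only on `p`, `d`).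
2. If `|A| > C p ^ ((1 - c) n)` then `A` contains a nontrivial three-term progression whose whole
  line is contained in `cl d A`. (For `d = 1` the closure is the affine hull.)
3. For all `k`: let `U` be a union of at most `p ^ (c n)` sets of common zeros of arbitrary
  systems of polynomials of degree at most `d`. If `U` has no nontrivial `k`-term progression, or
  only agrees up to `p ^ ((1 - ε) n)` points with such a set, then `|U| ≤ C p ^ ((1 - c) n)`.
4. In particular this holds for all sets `{x | (F_1 x, …, F_r x) ∈ S}`, where `r ≤ c n`, the `F_i`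
  are polynomials of degree at most `d` and `S ⊆ F_p^r` is arbitrary.

The proof: by the Croot-Lev-Pach method the matrix with the rows `∇ g (a)`, `g` in the space `V`
of polynomials of degree at most `d` vanishing on `A`, has rank `O(q + 1)` at most points `a`; the
same holds for iterated directional derivatives along lists `u_1, …, u_l` of directions with high
contact at `a`. Taking lists for which these ranks are maximal one constructs with minors a
polynomial `P` in `u` of degree `O(q + 1)` with `P 0 ≠ 0`, such that `P u ≠ 0` implies that all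
derivatives of all `g ∈ V` at `a` in direction `u` vanish.
-/

set_option autoImplicit false

namespace Pool.Agent.Results.MP_b30443_co.AlgebraicSets

open Finset MvPolynomial Pool.Agent.T6.H37.AP

/-- `A ⊆ F_p^n` contains no nontrivial `k`-term progression `x, x+y, …, x+(k-1)y` with `y ≠ 0`. -/
def APFree (k p n : ℕ) (A : Finset (Fin n → ZMod p)) : Prop :=
  ∀ x y : Fin n → ZMod p, (∀ i : ℕ, i < k → x + i • y ∈ A) → y = 0

/-- The degree `d` closure of `A`: the points at which all polynomials of degree at most `d`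
vanish which vanish on `A`. -/
def cl {p n : ℕ} (d : ℕ) (A : Finset (Fin n → ZMod p)) : Set (Fin n → ZMod p) :=
  {z | ∀ g : MvPolynomial (Fin n) (ZMod p), g.totalDegree ≤ d → (∀ a ∈ A, eval a g = 0) →
    eval z g = 0}

/-- `Z` is the set of common zeros of a system (of any size) of polynomials of degree at most
`d`. -/
def IsAlgebraic {p n : ℕ} (d : ℕ) (Z : Finset (Fin n → ZMod p)) : Prop :=
  ∃ G : Set (MvPolynomial (Fin n) (ZMod p)), (∀ g ∈ G, g.totalDegree ≤ d) ∧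
    ∀ x, x ∈ Z ↔ ∀ g ∈ G, eval x g = 0

variable {p : ℕ} [hp : Fact p.Prime]

lemma inCl_iff {n d : ℕ} {A : Finset (Fin n → ZMod p)} {x u : Fin n → ZMod p} :
    InCl d A x u ↔ ∀ t : ZMod p, x + t • u ∈ cl d A :=
  ⟨fun h t g h1 h2 => h g h1 h2 t, fun h g h1 h2 t => h t g h1 h2⟩

lemma inCl_mono {n d e : ℕ} (hde : d ≤ e) {A : Finset (Fin n → ZMod p)}
    {x u : Fin n → ZMod p} (h : InCl e A x u) : InCl d A x u :=
  fun g h1 h2 t => h g (h1.trans hde) h2 t

open Classical in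
lemma part1 (hp3 : 3 ≤ p) {d : ℕ} (hdp : d < p) : ∃ C : ℕ,
    ∀ (n q : ℕ) (A : Finset (Fin n → ZMod p)),
      (A.filter fun x => p ^ (C * (q + 1)) *
        (univ.filter fun u : Fin n → ZMod p => ∀ t : ZMod p, x + t • u ∈ cl d A).card <
        p ^ n).card * p ^ q ≤ p ^ n := by
  obtain ⟨C, hC⟩ := many_lines (p := p) hp3 (d := max d 1) (le_max_right _ _)
    (max_lt hdp (by omega))
  refine ⟨C, fun n q A => ?_⟩
  have h1 := hC (Fin n) A q
  rw [Fintype.card_fin] at h1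
  refine le_trans (Nat.mul_le_mul_right _ (Finset.card_le_card ?_)) h1
  intro x hx
  obtain ⟨hx1, hx2⟩ := mem_filter.1 hx
  refine mem_filter.2 ⟨hx1, lt_of_le_of_lt (Nat.mul_le_mul_left _ (Finset.card_le_card ?_)) hx2⟩
  intro u hu
  exact mem_filter.2 ⟨mem_univ _, inCl_iff.1 (inCl_mono (le_max_left _ _) (mem_filter.1 hu).2)⟩

/-- `p ^ n ≤ C p ^ ((1 - c) n)` for small `n` -/
lemma small_n {n N : ℕ} (hnN : n ≤ N) {c : ℝ} (hc1 : c ≤ 1) :
    (p : ℝ) ^ (n : ℝ) ≤ (p : ℝ) ^ (N : ℝ) * (p : ℝ) ^ ((1 - c) * n) := by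
  have hp1 : (1 : ℝ) ≤ p := by exact_mod_cast hp.out.one_lt.le
  have h1 : (p : ℝ) ^ (n : ℝ) ≤ (p : ℝ) ^ (N : ℝ) :=
    Real.rpow_le_rpow_of_exponent_le hp1 (by exact_mod_cast hnN)
  have h2 : (1 : ℝ) ≤ (p : ℝ) ^ ((1 - c) * n) :=
    Real.one_le_rpow hp1 (mul_nonneg (by linarith) (Nat.cast_nonneg _))
  have h3 : (0 : ℝ) ≤ (p : ℝ) ^ (N : ℝ) := by positivity
  nlinarith

lemma part2 (hp3 : 3 ≤ p) {d : ℕ} (hdp : d < p) : ∃ c : ℝ, 0 < c ∧ ∃ C : ℝ,
    ∀ (n : ℕ) (A : Finset (Fin n → ZMod p)), C * (p : ℝ) ^ ((1 - c) * n) < A.card →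
      ∃ x y : Fin n → ZMod p, y ≠ 0 ∧ x ∈ A ∧ x + y ∈ A ∧ x + 2 • y ∈ A ∧
        ∀ t : ZMod p, x + t • y ∈ cl d A := by
  obtain ⟨C₀, hC₀⟩ := three_line (p := p) hp3 (d := max d 1) (le_max_right _ _)
    (max_lt hdp (by omega))
  have hp1 : (1 : ℝ) ≤ p := by exact_mod_cast hp.out.one_lt.le
  have hpp : (0 : ℝ) < p := by linarith
  set K : ℝ := C₀ + 1 with hK
  have hK1 : 1 ≤ K := by
    have : (0 : ℝ) ≤ C₀ := Nat.cast_nonneg _
    linarith
  refine ⟨1 / (2 * K), by positivity, (p : ℝ) ^ ((4 * (C₀ + 1) : ℕ) : ℝ), ?_⟩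
  intro n A hA
  have hc1 : 1 / (2 * K) ≤ 1 := by
    rw [div_le_one (by positivity)]
    linarith
  have hAn : (A.card : ℝ) ≤ (p : ℝ) ^ (n : ℝ) := by
    rw [Real.rpow_natCast]
    have : A.card ≤ p ^ n := by
      calc A.card ≤ Fintype.card (Fin n → ZMod p) := Finset.card_le_univ A
        _ = p ^ n := by simp [ZMod.card]
    exact_mod_cast this
  by_cases hn : n ≤ 4 * (C₀ + 1)
  · exact absurd (hA.trans_le (hAn.trans (small_n hn hc1))) (lt_irrefl _)
  push Not at hn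
  set q := ⌈1 / (2 * K) * n⌉₊ with hq
  have hq1 : 1 / (2 * K) * n ≤ q := Nat.le_ceil _
  have hq2 : (q : ℝ) < 1 / (2 * K) * n + 1 := Nat.ceil_lt_add_one (by positivity)
  have hA2 : p ^ Fintype.card (Fin n) < A.card * p ^ q := by
    rw [Fintype.card_fin]
    have h1 : (p : ℝ) ^ (n : ℝ) < A.card * (p : ℝ) ^ (q : ℝ) := by
      have hC1 : (1 : ℝ) ≤ (p : ℝ) ^ ((4 * (C₀ + 1) : ℕ) : ℝ) :=
        Real.one_le_rpow hp1 (Nat.cast_nonneg _)
      have hpos : (0 : ℝ) < (p : ℝ) ^ ((1 - 1 / (2 * K)) * n) := by positivity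
      have h2 : (p : ℝ) ^ ((1 - 1 / (2 * K)) * n) < A.card := by nlinarith
      calc (p : ℝ) ^ (n : ℝ) = (p : ℝ) ^ ((1 - 1 / (2 * K)) * n) *
            (p : ℝ) ^ (1 / (2 * K) * n) := by
            rw [← Real.rpow_add hpp]
            congr 1
            ring
        _ ≤ (p : ℝ) ^ ((1 - 1 / (2 * K)) * n) * (p : ℝ) ^ (q : ℝ) :=
            mul_le_mul_of_nonneg_left (Real.rpow_le_rpow_of_exponent_le hp1 hq1) hpos.le
        _ < A.card * (p : ℝ) ^ (q : ℝ) := mul_lt_mul_of_pos_right h2 (by positivity)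
    rw [Real.rpow_natCast, Real.rpow_natCast] at h1
    exact_mod_cast h1
  have hq3 : C₀ * (q + 1) ≤ Fintype.card (Fin n) := by
    rw [Fintype.card_fin]
    have h1 : (C₀ : ℝ) * (q + 1) ≤ n := by
      have hn' : (4 * K : ℝ) ≤ n := by
        have : ((4 * (C₀ + 1) : ℕ) : ℝ) ≤ n := by exact_mod_cast hn.le
        push_cast at this
        linarith
      have h2 : (C₀ : ℝ) * (q + 1) ≤ K * (1 / (2 * K) * n + 2) := by
        apply mul_le_mul (by linarith) (by linarith) (by positivity) (by linarith)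
      have h3 : K * (1 / (2 * K) * n + 2) = n / 2 + 2 * K := by
        field_simp
      linarith
    exact_mod_cast h1
  obtain ⟨x, y, h1, h2, h3, h4, h5⟩ := hC₀ (Fin n) A q hA2 hq3
  exact ⟨x, y, h1, h2, h3, h4, inCl_iff.1 (inCl_mono (le_max_left _ _) h5)⟩

open Classical in
lemma part3 (hp3 : 3 ≤ p) {d : ℕ} (hdp : d < p) {k : ℕ} {ε : ℝ} (hε : 0 < ε) :
    ∃ c : ℝ, 0 < c ∧ ∃ C : ℝ, ∀ (n : ℕ) (𝒵 : Finset (Finset (Fin n → ZMod p)))
      (A : Finset (Fin n → ZMod p)), (∀ Z ∈ 𝒵, IsAlgebraic d Z) →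
      (𝒵.card : ℝ) ≤ (p : ℝ) ^ (c * n) → APFree k p n A →
      ((𝒵.biUnion id \ A).card : ℝ) ≤ (p : ℝ) ^ ((1 - ε) * n) →
      ((𝒵.biUnion id).card : ℝ) ≤ C * (p : ℝ) ^ ((1 - c) * n) := by
  obtain ⟨C₀, hC₀⟩ := part1 (p := p) hp3 hdp
  have hp1 : (1 : ℝ) ≤ p := by exact_mod_cast hp.out.one_lt.le
  have hpp : (0 : ℝ) < p := by linarith
  set K : ℝ := C₀ + 1 with hK
  have hK1 : 1 ≤ K := by
    have : (0 : ℝ) ≤ C₀ := Nat.cast_nonneg _
    linarith
  set δ : ℝ := min ε 1 with hδ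
  have hδ0 : 0 < δ := lt_min hε one_pos
  have hδ1 : δ ≤ 1 := min_le_right _ _
  have hδε : δ ≤ ε := min_le_left _ _
  set c : ℝ := δ / (4 * K) with hc
  have hc0 : 0 < c := by positivity
  have hcK : 4 * (K * c) = δ := by
    rw [hc]
    field_simp
  have hcδ : 4 * c ≤ δ := by
    rw [← hcK]
    nlinarith
  obtain ⟨N, hN⟩ := exists_nat_gt (2 * (3 * K + 1) / δ)
  rw [div_lt_iff₀ hδ0] at hN
  refine ⟨c, hc0, max 2 ((p : ℝ) ^ (N : ℝ)), ?_⟩
  intro n 𝒵 A hZ hcard hfree hrob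
  by_contra hcon
  push Not at hcon
  set U := 𝒵.biUnion id with hU
  have hpos : (0 : ℝ) < (p : ℝ) ^ ((1 - c) * n) := by positivity
  have hUn : (U.card : ℝ) ≤ (p : ℝ) ^ (n : ℝ) := by
    rw [Real.rpow_natCast]
    have : U.card ≤ p ^ n := by
      calc U.card ≤ Fintype.card (Fin n → ZMod p) := Finset.card_le_univ U
        _ = p ^ n := by simp [ZMod.card]
    exact_mod_cast this
  -- `n` is large
  have hnN : N < n := by
    by_contra hle
    push Not at hle
    have h1 := small_n (p := p) hle (by linarith : c ≤ 1)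
    have h2 : (p : ℝ) ^ (N : ℝ) * (p : ℝ) ^ ((1 - c) * n) ≤
        max 2 ((p : ℝ) ^ (N : ℝ)) * (p : ℝ) ^ ((1 - c) * n) :=
      mul_le_mul_of_nonneg_right (le_max_right _ _) hpos.le
    linarith
  have hn0 : (0 : ℝ) < n := by
    have : 0 < n := by omega
    exact_mod_cast this
  have hnN' : (N : ℝ) < n := by exact_mod_cast hnN
  -- a large member of the family
  obtain ⟨Z, hZm, hZc⟩ : ∃ Z ∈ 𝒵, 2 * (p : ℝ) ^ ((1 - 2 * c) * n) < Z.card := by
    by_contra hno
    push Not at hno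
    have h1 : (U.card : ℝ) ≤ 2 * (p : ℝ) ^ ((1 - c) * n) := by
      calc (U.card : ℝ) ≤ ((∑ Z ∈ 𝒵, Z.card : ℕ) : ℝ) := by
            exact_mod_cast Finset.card_biUnion_le
        _ = ∑ Z ∈ 𝒵, (Z.card : ℝ) := by push_cast; rfl
        _ ≤ ∑ _Z ∈ 𝒵, 2 * (p : ℝ) ^ ((1 - 2 * c) * n) := Finset.sum_le_sum hno
        _ = 𝒵.card * (2 * (p : ℝ) ^ ((1 - 2 * c) * n)) := by
            rw [Finset.sum_const, nsmul_eq_mul]
        _ ≤ (p : ℝ) ^ (c * n) * (2 * (p : ℝ) ^ ((1 - 2 * c) * n)) :=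
            mul_le_mul_of_nonneg_right hcard (by positivity)
        _ = 2 * ((p : ℝ) ^ (c * n) * (p : ℝ) ^ ((1 - 2 * c) * n)) := by ring
        _ = 2 * (p : ℝ) ^ ((1 - c) * n) := by
            rw [← Real.rpow_add hpp]
            congr 2
            ring
    have h2 : 2 * (p : ℝ) ^ ((1 - c) * n) ≤
        max 2 ((p : ℝ) ^ (N : ℝ)) * (p : ℝ) ^ ((1 - c) * n) :=
      mul_le_mul_of_nonneg_right (le_max_left _ _) hpos.le
    linarith
  -- the parameter `q`
  set q := ⌈2 * c * n⌉₊ with hq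
  have hq1 : 2 * c * n ≤ q := Nat.le_ceil _
  have hq2 : (q : ℝ) < 2 * c * n + 1 := Nat.ceil_lt_add_one (by positivity)
  -- a good point of `Z` in `A`
  obtain ⟨x, hxZ, hxA, hx⟩ : ∃ x ∈ Z, x ∈ A ∧ p ^ n ≤ p ^ (C₀ * (q + 1)) *
      (univ.filter fun u : Fin n → ZMod p => ∀ t : ZMod p, x + t • u ∈ cl d Z).card := by
    by_contra hno
    push Not at hno
    have h1 : Z ⊆ (Z.filter fun x => p ^ (C₀ * (q + 1)) *
        (univ.filter fun u : Fin n → ZMod p => ∀ t : ZMod p, x + t • u ∈ cl d Z).card <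
        p ^ n) ∪ (U \ A) := by
      intro x hx
      by_cases hxA : x ∈ A
      · exact mem_union_left _ (mem_filter.2 ⟨hx, hno x hx hxA⟩)
      · exact mem_union_right _ (mem_sdiff.2 ⟨mem_biUnion.2 ⟨Z, hZm, hx⟩, hxA⟩)
    have h2 := (Finset.card_le_card h1).trans (Finset.card_union_le _ _)
    have h3 := hC₀ n q Z
    set b := (Z.filter fun x => p ^ (C₀ * (q + 1)) *
        (univ.filter fun u : Fin n → ZMod p => ∀ t : ZMod p, x + t • u ∈ cl d Z).card <
        p ^ n).card with hb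
    have h4 : (b : ℝ) ≤ (p : ℝ) ^ ((1 - 2 * c) * n) := by
      have h5 : (b : ℝ) * (p : ℝ) ^ (q : ℝ) ≤ (p : ℝ) ^ (n : ℝ) := by
        rw [Real.rpow_natCast, Real.rpow_natCast]
        exact_mod_cast h3
      have h6 : (b : ℝ) * (p : ℝ) ^ (2 * c * n) ≤ (p : ℝ) ^ (n : ℝ) :=
        (mul_le_mul_of_nonneg_left (Real.rpow_le_rpow_of_exponent_le hp1 hq1)
          (Nat.cast_nonneg _)).trans h5
      have h7 : (p : ℝ) ^ (n : ℝ) = (p : ℝ) ^ ((1 - 2 * c) * n) * (p : ℝ) ^ (2 * c * n) := by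
        rw [← Real.rpow_add hpp]
        congr 1
        ring
      rw [h7] at h6
      exact le_of_mul_le_mul_right h6 (by positivity)
    have h5 : ((U \ A).card : ℝ) ≤ (p : ℝ) ^ ((1 - 2 * c) * n) := by
      refine hrob.trans (Real.rpow_le_rpow_of_exponent_le hp1 ?_)
      apply mul_le_mul_of_nonneg_right _ hn0.le
      linarith
    have h6 : (Z.card : ℝ) ≤ b + (U \ A).card := by exact_mod_cast h2
    linarith
  -- the closure of `Z` is `Z`
  obtain ⟨G, hG1, hG2⟩ := hZ Z hZm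
  have hcl : ∀ z ∈ cl d Z, z ∈ Z := fun z hz =>
    (hG2 z).2 fun g hg => hz g (hG1 g hg) fun a ha => (hG2 a).1 ha g hg
  set T := univ.filter fun u : Fin n → ZMod p => ∀ t : ZMod p, x + t • u ∈ cl d Z with hT
  -- every direction meets `U \ A`
  have h1 : ∀ u : Fin n → ZMod p, ∃ t : ZMod p, u ∈ T.erase 0 → x + t • u ∈ U \ A := by
    intro u
    by_cases hu : u ∈ T.erase 0
    · obtain ⟨hu0, huT⟩ := Finset.mem_erase.1 hu
      by_contra hno
      push Not at hno
      apply hu0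
      apply hfree x u
      intro i _
      by_contra hxi
      refine (hno (i : ZMod p)).2 (mem_sdiff.2 ⟨mem_biUnion.2 ⟨Z, hZm, hcl _
        ((mem_filter.1 huT).2 _)⟩, ?_⟩)
      rwa [Nat.cast_smul_eq_nsmul]
    · exact ⟨0, fun h => absurd h hu⟩
  choose τ hτ using h1
  have h2 : (T.erase 0).card ≤ ((univ : Finset (ZMod p)).erase 0 ×ˢ (U \ A)).card := by
    have hτ0 : ∀ u ∈ T.erase 0, τ u ≠ 0 := by
      intro u hu h0
      have h3 := hτ u hu
      rw [h0, zero_smul, add_zero] at h3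
      exact (mem_sdiff.1 h3).2 hxA
    refine Finset.card_le_card_of_injOn (fun u => (τ u, x + τ u • u)) ?_ ?_
    · intro u hu
      exact mem_product.2 ⟨Finset.mem_erase.2 ⟨hτ0 u hu, mem_univ _⟩, hτ u hu⟩
    · intro u hu v hv huv
      obtain ⟨h3, h4⟩ := Prod.mk.inj huv
      rw [← h3] at h4
      have h5 := add_left_cancel h4
      exact smul_right_injective _ (hτ0 u hu) h5
  have h0T : (0 : Fin n → ZMod p) ∈ T := by
    refine mem_filter.2 ⟨mem_univ _, fun t => ?_⟩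
    rw [smul_zero, add_zero]
    exact fun g _ h => h x hxZ
  rw [Finset.card_product, Finset.card_erase_of_mem (mem_univ _), Finset.card_univ, ZMod.card,
    Finset.card_erase_of_mem h0T] at h2
  have hTpos : 0 < T.card := Finset.card_pos.2 ⟨0, h0T⟩
  -- the final count
  have h3 : (T.card : ℝ) ≤ 1 + (p - 1) * (p : ℝ) ^ ((1 - δ) * n) := by
    have h4 : T.card ≤ 1 + (p - 1) * (U \ A).card := by omega
    have h5 : (T.card : ℝ) ≤ 1 + (p - 1) * ((U \ A).card : ℝ) := by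
      have h6 : ((p - 1 : ℕ) : ℝ) = (p : ℝ) - 1 := by
        rw [Nat.cast_sub hp.out.one_lt.le, Nat.cast_one]
      rw [← h6]
      exact_mod_cast h4
    have h7 : ((U \ A).card : ℝ) ≤ (p : ℝ) ^ ((1 - δ) * n) :=
      hrob.trans (Real.rpow_le_rpow_of_exponent_le hp1
        (mul_le_mul_of_nonneg_right (by linarith) hn0.le))
    have h8 : (0 : ℝ) ≤ p - 1 := by linarith
    nlinarith [mul_le_mul_of_nonneg_left h7 h8]
  have h4 : (1 : ℝ) ≤ (p : ℝ) ^ ((1 - δ) * n) :=
    Real.one_le_rpow hp1 (mul_nonneg (by linarith) hn0.le)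
  have h5 : (T.card : ℝ) ≤ (p : ℝ) ^ (1 + (1 - δ) * n) := by
    rw [Real.rpow_add hpp, Real.rpow_one]
    nlinarith
  have h6 : (p : ℝ) ^ (n : ℝ) ≤ (p : ℝ) ^ (K * (2 * c * n + 2)) *
      (p : ℝ) ^ (1 + (1 - δ) * n) := by
    have h7 : (p : ℝ) ^ (n : ℝ) ≤ (p : ℝ) ^ ((C₀ * (q + 1) : ℕ) : ℝ) * T.card := by
      rw [Real.rpow_natCast, Real.rpow_natCast]
      exact_mod_cast hx
    refine h7.trans (mul_le_mul ?_ h5 (Nat.cast_nonneg _) (by positivity))
    apply Real.rpow_le_rpow_of_exponent_le hp1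
    push_cast
    apply mul_le_mul (by linarith) (by linarith) (by positivity) (by linarith)
  rw [← Real.rpow_add hpp] at h6
  have hp2 : (1 : ℝ) < p := by exact_mod_cast hp.out.one_lt
  rw [Real.rpow_le_rpow_left_iff hp2] at h6
  have h7 : K * (2 * c * n + 2) = δ / 2 * n + 2 * K := by
    rw [← hcK]
    ring
  rw [h7] at h6
  nlinarith

lemma part4 {d : ℕ} {n r : ℕ} (F : Fin r → MvPolynomial (Fin n) (ZMod p))
    (hF : ∀ i, (F i).totalDegree ≤ d) (s : Fin r → ZMod p) (Z : Finset (Fin n → ZMod p))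
    (hZ : ∀ x, x ∈ Z ↔ ∀ i, eval x (F i) = s i) : IsAlgebraic d Z := by
  refine ⟨Set.range fun i => F i - C (s i), ?_, fun x => ?_⟩
  · rintro _ ⟨i, rfl⟩
    refine (totalDegree_sub _ _).trans (max_le (hF i) ?_)
    rw [totalDegree_C]
    exact Nat.zero_le _
  · rw [hZ]
    constructor
    · rintro h _ ⟨i, rfl⟩
      simp [h i]
    · intro h i
      have := h _ ⟨i, rfl⟩
      simpa [sub_eq_zero] using this

open Classical in
/-- See the file header. -/
theorem result (p : ℕ) [Fact p.Prime] (hp2 : p ≠ 2) (d : ℕ) (hd : d < p) :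
    (∃ C : ℕ, ∀ (n q : ℕ) (A : Finset (Fin n → ZMod p)),
      (A.filter fun x => p ^ (C * (q + 1)) *
        (univ.filter fun u : Fin n → ZMod p => ∀ t : ZMod p, x + t • u ∈ cl d A).card <
        p ^ n).card * p ^ q ≤ p ^ n) ∧
    (∃ c : ℝ, 0 < c ∧ ∃ C : ℝ, ∀ (n : ℕ) (A : Finset (Fin n → ZMod p)),
      C * (p : ℝ) ^ ((1 - c) * n) < A.card →
      ∃ x y : Fin n → ZMod p, y ≠ 0 ∧ x ∈ A ∧ x + y ∈ A ∧ x + 2 • y ∈ A ∧
        ∀ t : ZMod p, x + t • y ∈ cl d A) ∧
    (∀ k : ℕ, ∀ ε : ℝ, 0 < ε → ∃ c : ℝ, 0 < c ∧ ∃ C : ℝ,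
      ∀ (n : ℕ) (𝒵 : Finset (Finset (Fin n → ZMod p))) (A : Finset (Fin n → ZMod p)),
      (∀ Z ∈ 𝒵, IsAlgebraic d Z) → (𝒵.card : ℝ) ≤ (p : ℝ) ^ (c * n) → APFree k p n A →
      ((𝒵.biUnion id \ A).card : ℝ) ≤ (p : ℝ) ^ ((1 - ε) * n) →
      ((𝒵.biUnion id).card : ℝ) ≤ C * (p : ℝ) ^ ((1 - c) * n)) ∧
    (∀ k : ℕ, ∃ c : ℝ, 0 < c ∧ ∃ C : ℝ, ∀ (n r : ℕ)
      (F : Fin r → MvPolynomial (Fin n) (ZMod p)) (S : Set (Fin r → ZMod p)),
      (r : ℝ) ≤ c * n → (∀ i, (F i).totalDegree ≤ d) →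
      APFree k p n (univ.filter fun x => (fun i => eval x (F i)) ∈ S) →
      ((univ.filter fun x : Fin n → ZMod p => (fun i => eval x (F i)) ∈ S).card : ℝ) ≤
        C * (p : ℝ) ^ ((1 - c) * n)) := by
  have hp3 : 3 ≤ p := by
    have := (Fact.out : p.Prime).two_le
    omega
  have hp1 : (1 : ℝ) ≤ p := by
    have : 1 ≤ p := by omega
    exact_mod_cast this
  refine ⟨part1 hp3 hd, part2 hp3 hd, fun k ε hε => part3 hp3 hd hε, fun k => ?_⟩
  obtain ⟨c, hc, C, hC⟩ := part3 (p := p) hp3 hd (k := k) one_pos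
  refine ⟨c, hc, C, ?_⟩
  intro n r F S hr hF hfree
  set A := univ.filter fun x : Fin n → ZMod p => (fun i => eval x (F i)) ∈ S with hA
  let Z : (Fin r → ZMod p) → Finset (Fin n → ZMod p) := fun s =>
    univ.filter fun x => (fun i => eval x (F i)) = s
  have hU : ((univ.filter fun s : Fin r → ZMod p => s ∈ S).image Z).biUnion id = A := by
    ext x
    simp only [mem_biUnion, mem_image, mem_filter, mem_univ, true_and, id, Z, hA]
    constructor
    · rintro ⟨_, ⟨s, hs, rfl⟩, hx⟩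
      rw [(mem_filter.1 hx).2]
      exact hs
    · intro hx
      exact ⟨_, ⟨_, hx, rfl⟩, mem_filter.2 ⟨mem_univ _, rfl⟩⟩
  have h1 := hC n ((univ.filter fun s : Fin r → ZMod p => s ∈ S).image Z) A ?_ ?_ hfree ?_
  · rwa [hU] at h1
  · intro W hW
    obtain ⟨s, _, rfl⟩ := mem_image.1 hW
    refine part4 F hF s _ fun x => ?_
    simp only [Z, mem_filter, mem_univ, true_and]
    exact funext_iff
  · have h2 : (((univ.filter fun s : Fin r → ZMod p => s ∈ S).image Z).card : ℝ) ≤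
        ((p ^ r : ℕ) : ℝ) := by
      have h3 : ((univ.filter fun s : Fin r → ZMod p => s ∈ S).image Z).card ≤ p ^ r := by
        calc _ ≤ (univ.filter fun s : Fin r → ZMod p => s ∈ S).card := Finset.card_image_le
          _ ≤ Fintype.card (Fin r → ZMod p) := Finset.card_le_univ _
          _ = p ^ r := by simp [ZMod.card]
      exact_mod_cast h3
    refine h2.trans ?_
    rw [Nat.cast_pow, ← Real.rpow_natCast]
    exact Real.rpow_le_rpow_of_exponent_le hp1 hr
  · rw [hU, Finset.sdiff_self, card_empty, Nat.cast_zero]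
    positivity

end Pool.Agent.Results.MP_b30443_co.AlgebraicSets
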