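import Pool.Agent.T6.H6.LC.Ac

/-!
# Progression-free sets in `F_p^n` decided by circuits of constant depth

Let `A ⊆ F_p^n` be a set without `k`-term progressions whose common difference is a nonzero vector
with coordinates `0` and `1`. If membership in `A` is decided by a circuit of depth `d` with `2 ^ ℓ`
nodes which reads the coordinates in `F_p` (arbitrary tests of one coordinate, AND and OR gates of
any number of wires, arbitrary gates with at most `w` wires), then
`|A| ≤ (k + 2) p^n exp (k ℓ - n / (4 k d (2^(d+9) w ℓ)^d))`. The same holds, with `k m ℓ` in place of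
`k ℓ`, for sets which are given by a polynomial of degree `m` over any field in the outputs of such a
circuit. In particular: for some `c = c(p, k, d, w) > 0`, every progression-free set of size more than
`(k + 2) p^n exp (- c n^(1/(d+1)))` needs more than `exp (c n^(1/(d+1)))` nodes in depth `d`.

Proof. Choose a random restriction which leaves a random set `E` of coordinates free, and a random
point `x`. For each fixed `u` and `j < k`, the functions `b ↦ [node v is true at u + j b]` on the cube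
`{0,1}^n` form a circuit with Boolean inputs, and the multi-switching lemma says that all nodes have
small depth, up to a common partial decision tree of depth `d t`, except with probability `4^(-t-1)`.
As translations are bijective, this applies to `z ↦ [x + j z ∈ A]`, `z ∈ {0,1}^E`, so that these are
polynomials of degree `d t + m ℓ`; their product over `j < k` vanishes exactly outside `z = 0` if
`x ∈ A`, so it has degree `|E|`. This is impossible if `|E| > k (d t + m ℓ)`.
-/

set_option autoImplicit false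

namespace Pool.Agent.Results.MP_b30443_co.ConstantDepth

open Finset

/-- `A` contains no nontrivial `k`-term progression whose common difference has all coordinates in
`{0, 1}`. -/
def BinaryAPFree (k p n : ℕ) (A : Finset (Fin n → ZMod p)) : Prop :=
  ∀ x y : Fin n → ZMod p, (∀ i, y i = 0 ∨ y i = 1) → (∀ j : ℕ, j < k → x + j • y ∈ A) → y = 0

/-- A circuit which reads the coordinates of `x ∈ F_p^n`; `val v x` is the value of the node `v` at
`x`. Every node `v` is a test `D (x i)` of one coordinate, or a gate whose wires `(u, b) ∈ J` come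
from nodes `u` of smaller depth; the wire `(u, b)` is on if `u` has the value `b`. A gate with at most
`w` wires can be any function of the set of the wires which are on; a gate with more than `w` wires
is on if all of its wires are on (AND), or if one of them is on (OR). -/
structure Circuit (p w n : ℕ) where
  Node : Type
  [finite : Finite Node]
  val : Node → (Fin n → ZMod p) → Bool
  depth : Node → ℕ
  rule : ∀ v : Node, (∃ (i : Fin n) (D : ZMod p → Bool), ∀ x, val v x = D (x i)) ∨
    ∃ J : Finset (Node × Bool), (∀ u ∈ J, depth u.1 < depth v) ∧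
      ((J.card ≤ w ∧ ∃ F : Finset (Node × Bool) → Bool,
          ∀ x, val v x = F (J.filter fun u => val u.1 x = u.2)) ∨
        (∀ x, val v x = decide (∀ u ∈ J, val u.1 x = u.2)) ∨
        (∀ x, val v x = decide (∃ u ∈ J, val u.1 x = u.2)))

/-- For some circuit with at most `N` nodes, all of depth at most `d`, and some polynomial `P` of
degree at most `m` over a field, the set `A` consists of the `x` at which `P` does not vanish at the
values (`0` or `1`) of some `T` nodes. -/
def Defined (p w n N d m : ℕ) (A : Finset (Fin n → ZMod p)) : Prop :=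
  ∃ (C : Circuit p w n) (T : ℕ) (out : Fin T → C.Node) (K : Type) (_ : Field K)
    (P : MvPolynomial (Fin T) K), Nat.card C.Node ≤ N ∧ (∀ v, C.depth v ≤ d) ∧ P.totalDegree ≤ m ∧
      ∀ x, x ∈ A ↔
        MvPolynomial.eval (fun i => if C.val (out i) x = true then (1 : K) else 0) P ≠ 0

/-- For some circuit with at most `N` nodes, all of depth at most `d`, the set `A` consists of the
`x` at which a certain node of the circuit is true. -/
def Decided (p w n : ℕ) (N : ℝ) (d : ℕ) (A : Finset (Fin n → ZMod p)) : Prop :=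
  ∃ (C : Circuit p w n) (v : C.Node), (Nat.card C.Node : ℝ) ≤ N ∧ (∀ u, C.depth u ≤ d) ∧
    ∀ x, x ∈ A ↔ C.val v x = true

theorem bound {p k n w ℓ d m : ℕ} (hp : p.Prime) (hk : 2 ≤ k) (hw : 1 ≤ w) (hℓ : 1 ≤ ℓ)
    (hd : 1 ≤ d) (A : Finset (Fin n → ZMod p)) (hfree : BinaryAPFree k p n A)
    (hA : Defined p w n (2 ^ ℓ) d m A) :
    (A.card : ℝ) ≤ (k + 2) * (p : ℝ) ^ n *
      Real.exp (k * m * ℓ - n / (4 * k * d * (2 ^ (d + 9) * (w * ℓ)) ^ d)) := by
  classical
  have : NeZero p := ⟨hp.ne_zero⟩
  have : Fact p.Prime := ⟨hp⟩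
  obtain ⟨C, T, out, K, _, P, hsz, hdep, hP, hA⟩ := hA
  let C' : Pool.Agent.T6.H6.LC.ACirc (ZMod p) w n :=
    { Node := C.Node, finite := C.finite, val := C.val, depth := C.depth, rule := C.rule }
  have h1 := Pool.Agent.T6.H6.LC.mainA (K := K) (k := k) (T := T) (m := m) (ℓ := ℓ) (d := d)
    (w := w) (L := ZMod p) (n := n) (by omega) hd hw hℓ
    (fun j _ => Equiv.addRight (((j : Fin k) : ℕ) : ZMod p)) C' hsz hdep out P hP A
    (fun x => by rw [hA x]) (by
      intro x W hW
      have h2 := hfree x (fun v => if v ∈ W then 1 else 0) (fun v => by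
        by_cases hv : v ∈ W <;> simp [hv]) (by
        intro j hj
        have h3 := hW ⟨j, hj⟩
        have h4 : Pool.Agent.T6.H6.LC.mix
            (fun _ : Fin n => Equiv.addRight (((⟨j, hj⟩ : Fin k) : ℕ) : ZMod p)) W x =
            x + j • (fun v => if v ∈ W then (1 : ZMod p) else 0) := by
          funext v
          by_cases hv : v ∈ W <;> simp [Pool.Agent.T6.H6.LC.mix, hv]
        rw [← h4]
        exact h3)
      ext v
      have h5 := congrFun h2 v
      by_cases hv : v ∈ W
      · simp [hv] at h5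
      · simp [hv])
  rw [ZMod.card] at h1
  exact h1

theorem tradeoff {p k d w : ℕ} (hp : p.Prime) (hk : 2 ≤ k) (hw : 1 ≤ w) (hd : 1 ≤ d) :
    ∃ c : ℝ, 0 < c ∧ ∀ (n : ℕ) (A : Finset (Fin n → ZMod p)), BinaryAPFree k p n A →
      Decided p w n (Real.exp (c * (n : ℝ) ^ (1 / (d + 1 : ℝ)))) d A →
        (A.card : ℝ) ≤ (k + 2) * (p : ℝ) ^ n * Real.exp (-(c * (n : ℝ) ^ (1 / (d + 1 : ℝ)))) := by
  have hkr : (2 : ℝ) ≤ k := by exact_mod_cast hk
  have hdr : (1 : ℝ) ≤ d := by exact_mod_cast hd
  have hwr : (1 : ℝ) ≤ w := by exact_mod_cast hw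
  -- the constant in front of `ℓ ^ d`
  set M : ℝ := 4 * k * d * (2 ^ (d + 9) * w) ^ d with hM
  have hM1 : 1 ≤ M := by
    have h1 : (1 : ℝ) ≤ (2 ^ (d + 9) * w) ^ d := by
      apply one_le_pow₀
      have : (1 : ℝ) ≤ 2 ^ (d + 9) := one_le_pow₀ (by norm_num)
      nlinarith
    have h2 : (1 : ℝ) ≤ 4 * k * d := by nlinarith
    rw [hM]
    nlinarith
  have hM0 : 0 < M := by linarith
  -- `ℓ ≤ 4 c Y`, `Y = n ^ (1/(d+1))`, and `n / (M ℓ ^ d) ≥ Y / (M (4c)^d)`
  set c : ℝ := 1 / (32 * k * M) with hc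
  have hc0 : 0 < c := by rw [hc]; positivity
  have hc1 : 32 * k * M * c = 1 := by rw [hc]; field_simp
  have hcs : c ≤ 1 / 32 := by
    rw [hc, one_div, one_div]
    apply inv_anti₀ (by norm_num)
    nlinarith
  refine ⟨c, hc0, fun n A hfree hA => ?_⟩
  set Y : ℝ := (n : ℝ) ^ (1 / (d + 1 : ℝ)) with hY
  have hY0 : 0 ≤ Y := by rw [hY]; positivity
  have hYn : Y ^ (d + 1) = n := by
    rw [hY, ← Real.rpow_natCast, ← Real.rpow_mul (by positivity)]
    push_cast
    rw [one_div, inv_mul_cancel₀ (by positivity), Real.rpow_one]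
  have : NeZero p := ⟨hp.ne_zero⟩
  have hAZ : (A.card : ℝ) ≤ (p : ℝ) ^ n := by
    have := card_le_univ A
    rw [Fintype.card_fun, Fintype.card_fin, ZMod.card] at this
    exact_mod_cast this
  have hZ0 : (0 : ℝ) ≤ (p : ℝ) ^ n := by positivity
  rcases le_or_gt (c * Y) 1 with hs | hs
  · have h5 : (0.36 : ℝ) ≤ Real.exp (-1) := by
      have := Real.exp_neg_one_gt_d9
      linarith
    have h2 : Real.exp (-1) ≤ Real.exp (-(c * Y)) := Real.exp_le_exp.2 (by linarith)
    calc (A.card : ℝ) ≤ (p : ℝ) ^ n * 1 := by rw [mul_one]; exact hAZ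
      _ ≤ (p : ℝ) ^ n * ((k + 2) * Real.exp (-(c * Y))) :=
          mul_le_mul_of_nonneg_left (by nlinarith) hZ0
      _ = _ := by ring
  · obtain ⟨C, v, hsz, hdep, hv⟩ := hA
    set ℓ : ℕ := ⌈2 * (c * Y)⌉₊ with hℓ
    have hℓ1 : 1 ≤ ℓ := Nat.one_le_iff_ne_zero.2 (by
      rw [hℓ, Ne, Nat.ceil_eq_zero]
      linarith)
    have hℓ2 : (ℓ : ℝ) ≤ 3 * (c * Y) := by
      have := (Nat.ceil_lt_add_one (a := 2 * (c * Y)) (by positivity)).le
      linarith
    have hℓ3 : 2 * (c * Y) ≤ ℓ := Nat.le_ceil _
    have hℓ0 : (0 : ℝ) < ℓ := by exact_mod_cast hℓ1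
    have hN : Nat.card C.Node ≤ 2 ^ ℓ := by
      have h1 : Real.exp (c * Y) ≤ (2 : ℝ) ^ ℓ := by
        have h2 : (2 : ℝ) ^ ℓ = Real.exp (Real.log 2 * ℓ) := by
          rw [← Real.rpow_natCast, Real.rpow_def_of_pos (by norm_num)]
        rw [h2]
        apply Real.exp_le_exp.2
        have h3 : (0.5 : ℝ) ≤ Real.log 2 := by
          have := Real.log_two_gt_d9
          linarith
        have h4 : 0 ≤ c * Y := by positivity
        nlinarith
      exact_mod_cast hsz.trans h1
    have hdef : Defined p w n (2 ^ ℓ) d 1 A := by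
      refine ⟨C, 1, fun _ => v, ℚ, inferInstance, MvPolynomial.X 0, hN, hdep, ?_, fun x => ?_⟩
      · rw [MvPolynomial.totalDegree_X]
      · rw [MvPolynomial.eval_X, hv]
        by_cases hx : C.val v x = true <;> simp [hx]
    refine (bound hp hk hw hℓ1 hd A hfree hdef).trans ?_
    refine mul_le_mul_of_nonneg_left (Real.exp_le_exp.2 ?_) (by positivity)
    have h6 : (4 * (k : ℝ) * d * (2 ^ (d + 9) * (w * ℓ)) ^ d) = M * (ℓ : ℝ) ^ d := by
      rw [hM, ← mul_assoc, mul_pow _ (ℓ : ℝ)]
      ring
    rw [h6]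
    push_cast
    -- `n / (M ℓ ^ d) ≥ 8 k c Y`
    have h7 : (ℓ : ℝ) ^ d ≤ (3 * c) * Y ^ d := by
      calc (ℓ : ℝ) ^ d ≤ (3 * (c * Y)) ^ d := pow_le_pow_left₀ hℓ0.le hℓ2 _
        _ = (3 * c) ^ d * Y ^ d := by rw [← mul_assoc, mul_pow]
        _ ≤ (3 * c) ^ 1 * Y ^ d := by
            refine mul_le_mul_of_nonneg_right ?_ (by positivity)
            exact pow_le_pow_of_le_one (by positivity) (by linarith) hd
        _ = (3 * c) * Y ^ d := by rw [pow_one]
    have hYp : 0 < Y := by
      by_contra hcon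
      push Not at hcon
      have : c * Y ≤ 0 := mul_nonpos_of_nonneg_of_nonpos hc0.le hcon
      linarith
    have h8 : 4 * (k * (c * Y)) ≤ n / (M * (ℓ : ℝ) ^ d) := by
      rw [le_div_iff₀ (by positivity), ← hYn, pow_succ]
      calc 4 * (k * (c * Y)) * (M * (ℓ : ℝ) ^ d)
          ≤ 4 * (k * (c * Y)) * (M * ((3 * c) * Y ^ d)) := by
            refine mul_le_mul_of_nonneg_left (mul_le_mul_of_nonneg_left h7 hM0.le) (by positivity)
        _ = (k * M * c) * (12 * c) * (Y ^ d * Y) := by ring
        _ ≤ 1 * (Y ^ d * Y) := by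
            refine mul_le_mul_of_nonneg_right ?_ (by positivity)
            have h9 : k * M * c = 1 / 32 := by linarith
            rw [h9]
            linarith
        _ = Y ^ d * Y := one_mul _
    have h10 : (k : ℝ) * ℓ ≤ 3 * (k * (c * Y)) := by nlinarith
    have h11 : c * Y ≤ k * (c * Y) := by nlinarith [mul_pos hc0 hYp]
    linarith

/-- (1) Let `p` be a prime, `k ≥ 2` and `w, ℓ, d ≥ 1`. If `A ⊆ F_p^n` contains no `k`-term progression
with a nonzero common difference in `{0, 1}^n`, and `A` is given by a polynomial of degree at most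
`m`, over any field, in the values of nodes of a circuit of depth at most `d` with at most `2 ^ ℓ`
nodes, then `|A| ≤ (k + 2) p^n exp (k m ℓ - n / (4 k d (2^(d+9) w ℓ)^d))`.
(2) For all `p, k, w, d` there is `c > 0` such that for all `n` every such `A ⊆ F_p^n` which is decided
by a circuit of depth at most `d` with at most `exp (c n^(1/(d+1)))` nodes has at most
`(k + 2) p^n exp (- c n^(1/(d+1)))` elements. -/
theorem result :
    (∀ p k n w ℓ d m : ℕ, p.Prime → 2 ≤ k → 1 ≤ w → 1 ≤ ℓ → 1 ≤ d →
      ∀ A : Finset (Fin n → ZMod p), BinaryAPFree k p n A → Defined p w n (2 ^ ℓ) d m A →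
        (A.card : ℝ) ≤ (k + 2) * (p : ℝ) ^ n *
          Real.exp (k * m * ℓ - n / (4 * k * d * (2 ^ (d + 9) * (w * ℓ)) ^ d))) ∧
    (∀ p k w d : ℕ, p.Prime → 2 ≤ k → 1 ≤ w → 1 ≤ d → ∃ c : ℝ, 0 < c ∧
      ∀ (n : ℕ) (A : Finset (Fin n → ZMod p)), BinaryAPFree k p n A →
        Decided p w n (Real.exp (c * (n : ℝ) ^ (1 / (d + 1 : ℝ)))) d A →
          (A.card : ℝ) ≤ (k + 2) * (p : ℝ) ^ n * Real.exp (-(c * (n : ℝ) ^ (1 / (d + 1 : ℝ))))) :=
  ⟨fun _ _ _ _ _ _ _ hp hk hw hℓ hd A hA h => bound hp hk hw hℓ hd A hA h,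
    fun _ _ _ _ hp hk hw hd => tradeoff hp hk hw hd⟩

end Pool.Agent.Results.MP_b30443_co.ConstantDepth
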