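import Pool.Agent.T6.H29.OR.Tr

/-!
# Progression-free sets and orbits of linear maps of large order

Let `k ≥ 3` and let `p ≥ k` be a prime. A linear map `S ∈ GL_n(F_p)` is of Singer type, of degree
`d`, if `(S - 1) π(S) = 0` for an irreducible polynomial `π` of degree `d` with `π(1) ≠ 0`: the
space is the sum of the space of fixed vectors and of `d`-dimensional spaces on which `S` acts
irreducibly. For instance all `S ≠ 1` with irreducible characteristic polynomial are of Singer type,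
of degree `n`. We prove for all sets `A ⊆ F_p^n` without nontrivial `k`-term progressions:

1. If `A` is a union of `N` segments `{c + S^j v : j < L}` of (translated) orbits of linear maps of
  Singer type then `|A| ≤ N · 2 k (2 + n log p) · p^(n (1 - 1/(2k-2)))`.
2. If `A` is a union of `N` sets, each of which is invariant under some map `x ↦ c + S (x - c)`,
  where `S ≠ 1` is of Singer type of degree `d' ≥ d` and has order at least `(p^d' - 1) / r`, then
  `|A| ≤ N · (4k+1) r^((k-2)/k) p^(n - d/k)`.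
3. In particular, if `A` is invariant under `x ↦ c + S (x - c)`, where `S ≠ 1` has irreducible
  characteristic polynomial and order at least `p^((1-ρ) n)`, then
  `|A| ≤ (4k+1) p^((1 - (1 - (k-2) ρ)/k) n)`.

The proof uses the multiplicative Fourier expansion of the set on the lines over the field `F_{p^d}`
and Weil's bound for the sums `∑ χ_1 (x + a_1) ⋯ χ_k (x + a_k)` with arbitrary multiplicative
characters, which is proved from the version for characters of prime order in the library.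
-/

set_option autoImplicit false
set_option linter.unusedSectionVars false

namespace Pool.Agent.Results.MP_b30443_co.LinearOrbits

open Finset Polynomial Pool.Agent.T6.H29.OR

/-- `A ⊆ F_p^n` contains no nontrivial `k`-term progression `x, x+y, …, x+(k-1)y` with `y ≠ 0`. -/
def APFree (k p n : ℕ) (A : Finset (Fin n → ZMod p)) : Prop :=
  ∀ x y : Fin n → ZMod p, (∀ i : ℕ, i < k → x + i • y ∈ A) → y = 0

/-- `S ∈ GL_n(F_p)` is of Singer type, of degree `d`: `(S - 1) π(S) = 0` for some irreducible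
polynomial `π` of degree `d` with `π(1) ≠ 0`. -/
def SingerType (p n d : ℕ) [Fact p.Prime] (S : (Fin n → ZMod p) ≃ₗ[ZMod p] (Fin n → ZMod p)) :
    Prop :=
  ∃ π : (ZMod p)[X], Irreducible π ∧ π.natDegree = d ∧ π.eval 1 ≠ 0 ∧
    aeval (S : (Fin n → ZMod p) →ₗ[ZMod p] (Fin n → ZMod p)) ((X - 1) * π) = 0

variable {p : ℕ} [hpf : Fact p.Prime] {n : ℕ}

lemma pow_coe (S : (Fin n → ZMod p) ≃ₗ[ZMod p] (Fin n → ZMod p)) (j : ℕ) (v : Fin n → ZMod p) :
    (S ^ j) v = ((S : (Fin n → ZMod p) →ₗ[ZMod p] (Fin n → ZMod p)) ^ j) v := by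
  induction j generalizing v with
  | zero => rfl
  | succ j ih => rw [pow_succ, pow_succ, Module.End.mul_apply, ← ih]; rfl

lemma orderOf_coe (S : (Fin n → ZMod p) ≃ₗ[ZMod p] (Fin n → ZMod p)) :
    orderOf (S : Module.End (ZMod p) (Fin n → ZMod p)) = orderOf S := by
  apply orderOf_eq_orderOf_iff.2
  intro j
  constructor
  · intro h
    apply LinearEquiv.ext
    intro v
    rw [pow_coe]
    exact congrArg (fun T : Module.End (ZMod p) (Fin n → ZMod p) => T v) h
  · intro h
    apply LinearMap.ext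
    intro v
    rw [← pow_coe, h]
    rfl

lemma coe_ne_one (S : (Fin n → ZMod p) ≃ₗ[ZMod p] (Fin n → ZMod p)) (hS : S ≠ 1) :
    (S : Module.End (ZMod p) (Fin n → ZMod p)) ≠ 1 := by
  intro h
  apply hS
  apply LinearEquiv.ext
  intro v
  exact congrArg (fun T : Module.End (ZMod p) (Fin n → ZMod p) => T v) h

lemma cardV : (Fintype.card (Fin n → ZMod p) : ℝ) = (p : ℝ) ^ (n : ℝ) := by
  simp [ZMod.card]

lemma one_lt_p : (1 : ℝ) < p := by exact_mod_cast hpf.out.one_lt

lemma mono {k : ℕ} {A B : Finset (Fin n → ZMod p)} (hA : APFree k p n A) (h : B ⊆ A) :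
    APFree k p n B := fun x y hxy => hA x y fun i hi => h (hxy i hi)

lemma part2 (k : ℕ) (hk : 3 ≤ k) (hkp : k ≤ p) (S : (Fin n → ZMod p) ≃ₗ[ZMod p] (Fin n → ZMod p))
    (d e : ℕ) (c : Fin n → ZMod p) (B : Finset (Fin n → ZMod p)) (r : ℝ) (hS : SingerType p n d S)
    (hS1 : S ≠ 1) (he : e ≤ d) (hr : (p : ℝ) ^ d - 1 ≤ r * orderOf S)
    (hB : ∀ x ∈ B, c + S (x - c) ∈ B) (hfree : APFree k p n B) :
    (B.card : ℝ) ≤ (4 * k + 1) * r ^ (((k : ℝ) - 2) / k) * (p : ℝ) ^ ((n : ℝ) - e / k) := by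
  obtain ⟨π, h1, h2, h3, h4⟩ := hS
  have hp1 := one_lt_p (p := p)
  have hk0 : (0 : ℝ) < k := by exact_mod_cast (by omega : 0 < k)
  have hb := inv_bound (S := (S : Module.End (ZMod p) (Fin n → ZMod p))) k hk hkp h1 h4 h3
    S.injective (coe_ne_one S hS1) r (by rw [h2, orderOf_coe]; exact hr) c B hB hfree
  rw [h2, cardV, ← Real.rpow_natCast (p : ℝ) d, ← Real.rpow_mul (by linarith)] at hb
  have hr0 : 0 ≤ r := by
    have h5 : (0 : ℝ) ≤ (p : ℝ) ^ d - 1 := by
      have := one_le_pow₀ hp1.le (n := d)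
      linarith
    have h6 : (0 : ℝ) ≤ orderOf S := Nat.cast_nonneg _
    by_contra hneg
    push Not at hneg
    have hd : 1 ≤ d := by
      rw [← h2]
      exact h1.natDegree_pos
    have h7 : (1 : ℝ) < (p : ℝ) ^ d := one_lt_pow₀ hp1 (by omega)
    nlinarith
  refine hb.trans ?_
  rw [mul_assoc ((4 * (k : ℝ) + 1) * r ^ (((k : ℝ) - 2) / k)), ← Real.rpow_add (by linarith)]
  apply mul_le_mul_of_nonneg_left _ (by positivity)
  apply Real.rpow_le_rpow_of_exponent_le hp1.le
  have h5 : (e : ℝ) ≤ d := by exact_mod_cast he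
  have h6 : (e : ℝ) / k ≤ d / k := div_le_div_of_nonneg_right h5 hk0.le
  have h7 : (d : ℝ) * -(1 / (k : ℝ)) = -(d / k) := by ring
  rw [h7]
  linarith

/-- **Progression-free sets and orbits of linear maps.** -/
theorem result (k p n : ℕ) [Fact p.Prime] (hk : 3 ≤ k) (hkp : k ≤ p) :
    (∀ (N : ℕ) (S : Fin N → ((Fin n → ZMod p) ≃ₗ[ZMod p] (Fin n → ZMod p))) (d L : Fin N → ℕ)
      (c v : Fin N → (Fin n → ZMod p)) (A : Finset (Fin n → ZMod p)),
      (∀ i, SingerType p n (d i) (S i)) →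
      (∀ x, x ∈ A ↔ ∃ i, ∃ j < L i, x = c i + (S i ^ j) (v i)) → APFree k p n A →
      (A.card : ℝ) ≤ N * (2 * k * (2 + n * Real.log p) *
        (p : ℝ) ^ ((n : ℝ) * (1 - 1 / (2 * k - 2))))) ∧
    (∀ (N : ℕ) (S : Fin N → ((Fin n → ZMod p) ≃ₗ[ZMod p] (Fin n → ZMod p))) (d : Fin N → ℕ)
      (e : ℕ) (c : Fin N → (Fin n → ZMod p)) (B : Fin N → Finset (Fin n → ZMod p)) (r : ℝ)
      (A : Finset (Fin n → ZMod p)),
      (∀ i, SingerType p n (d i) (S i) ∧ S i ≠ 1 ∧ e ≤ d i ∧
        (p : ℝ) ^ (d i) - 1 ≤ r * orderOf (S i) ∧ ∀ x ∈ B i, c i + S i (x - c i) ∈ B i) →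
      (∀ x, x ∈ A ↔ ∃ i, x ∈ B i) → APFree k p n A →
      (A.card : ℝ) ≤ N * ((4 * k + 1) * r ^ (((k : ℝ) - 2) / k) *
        (p : ℝ) ^ ((n : ℝ) - e / k))) ∧
    (∀ (S : (Fin n → ZMod p) ≃ₗ[ZMod p] (Fin n → ZMod p)) (c : Fin n → ZMod p) (ρ : ℝ)
      (A : Finset (Fin n → ZMod p)),
      Irreducible (LinearMap.charpoly (S : (Fin n → ZMod p) →ₗ[ZMod p] (Fin n → ZMod p))) →
      S ≠ 1 → (p : ℝ) ^ ((1 - ρ) * n) ≤ orderOf S →
      (∀ x ∈ A, c + S (x - c) ∈ A) → APFree k p n A →
      (A.card : ℝ) ≤ (4 * k + 1) * (p : ℝ) ^ ((1 - (1 - (k - 2) * ρ) / k) * n)) := by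
  classical
  have hp1 := one_lt_p (p := p)
  have hk0 : (0 : ℝ) < k := by exact_mod_cast (by omega : 0 < k)
  refine ⟨?_, ?_, ?_⟩
  · intro N S d L c v A hS hA hfree
    have h1 : ∀ i, (((range (L i)).image fun j => c i + (S i ^ j) (v i)).card : ℝ) ≤
        2 * k * (2 + n * Real.log p) * (p : ℝ) ^ ((n : ℝ) * (1 - 1 / (2 * k - 2))) := by
      intro i
      obtain ⟨π, h1, h2, h3, h4⟩ := hS i
      have hset : ((range (L i)).image fun j => c i + (S i ^ j) (v i)) =
          (range (L i)).image fun j => c i +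
            ((S i : Module.End (ZMod p) (Fin n → ZMod p)) ^ j) (v i) := by
        refine image_congr ?_
        intro j _
        simp only [pow_coe]
      have hsub : ((range (L i)).image fun j => c i + (S i ^ j) (v i)) ⊆ A := by
        intro x hx
        obtain ⟨j, hj, rfl⟩ := mem_image.1 hx
        exact (hA _).2 ⟨i, j, mem_range.1 hj, rfl⟩
      have hb := orbit_bound (S := (S i : Module.End (ZMod p) (Fin n → ZMod p))) k hk hkp h1 h4 h3
        (S i).injective (c i) (v i) (L i) (by rw [← hset]; exact mono hfree hsub)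
      rw [← hset, cardV, Real.log_rpow (by linarith), ← Real.rpow_mul (by linarith)] at hb
      exact hb
    have h2 : A ⊆ univ.biUnion fun i => (range (L i)).image fun j => c i + (S i ^ j) (v i) := by
      intro x hx
      obtain ⟨i, j, hj, rfl⟩ := (hA x).1 hx
      exact mem_biUnion.2 ⟨i, mem_univ _, mem_image.2 ⟨j, mem_range.2 hj, rfl⟩⟩
    have h3 : (A.card : ℝ) ≤ ∑ i : Fin N,
        (((range (L i)).image fun j => c i + (S i ^ j) (v i)).card : ℝ) := by
      exact_mod_cast (card_le_card h2).trans card_biUnion_le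
    refine h3.trans ((sum_le_sum fun i _ => h1 i).trans (le_of_eq ?_))
    rw [sum_const, card_univ, Fintype.card_fin, nsmul_eq_mul]
  · intro N S d e c B r A hS hA hfree
    have h1 : ∀ i, ((B i).card : ℝ) ≤ (4 * k + 1) * r ^ (((k : ℝ) - 2) / k) *
        (p : ℝ) ^ ((n : ℝ) - e / k) := by
      intro i
      obtain ⟨h1, h2, h3, h4, h5⟩ := hS i
      exact part2 k hk hkp (S i) (d i) e (c i) (B i) r h1 h2 h3 h4 h5
        (mono hfree fun x hx => (hA x).2 ⟨i, hx⟩)
    have h2 : A ⊆ univ.biUnion B := by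
      intro x hx
      obtain ⟨i, hi⟩ := (hA x).1 hx
      exact mem_biUnion.2 ⟨i, mem_univ _, hi⟩
    have h3 : (A.card : ℝ) ≤ ∑ i : Fin N, ((B i).card : ℝ) := by
      exact_mod_cast (card_le_card h2).trans card_biUnion_le
    refine h3.trans ((sum_le_sum fun i _ => h1 i).trans (le_of_eq ?_))
    rw [sum_const, card_univ, Fintype.card_fin, nsmul_eq_mul]
  · intro S c ρ A hirr hS1 hord hA hfree
    set T : Module.End (ZMod p) (Fin n → ZMod p) :=
      (S : (Fin n → ZMod p) →ₗ[ZMod p] (Fin n → ZMod p)) with hT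
    have hCH : aeval T T.charpoly = 0 := LinearMap.aeval_self_charpoly T
    have hdeg : T.charpoly.natDegree = n := by
      rw [LinearMap.charpoly_natDegree, Module.finrank_pi, Fintype.card_fin]
    have heval : T.charpoly.eval 1 ≠ 0 := by
      intro h0
      have h1 : (X - C 1 : (ZMod p)[X]) ∣ T.charpoly := dvd_iff_isRoot.2 h0
      have h2 : Associated (X - C 1 : (ZMod p)[X]) T.charpoly :=
        (irreducible_X_sub_C (1 : ZMod p)).associated_of_dvd hirr h1
      obtain ⟨g, hg⟩ := h2.symm.dvd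
      have h3 : aeval T (X - C 1 : (ZMod p)[X]) = 0 := by
        rw [hg, map_mul, hCH, zero_mul]
      rw [map_sub, aeval_X, aeval_C, map_one, sub_eq_zero] at h3
      exact coe_ne_one S hS1 h3
    have hST : SingerType p n n S := ⟨T.charpoly, hirr, hdeg, heval, by
      rw [map_mul]
      have : aeval (S : (Fin n → ZMod p) →ₗ[ZMod p] (Fin n → ZMod p)) T.charpoly = 0 := hCH
      rw [this, mul_zero]⟩
    have h1 := part2 k hk hkp S n n c A ((p : ℝ) ^ (ρ * n)) hST hS1 le_rfl (by
      have h2 : (p : ℝ) ^ n = (p : ℝ) ^ (ρ * n) * (p : ℝ) ^ ((1 - ρ) * n) := by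
        rw [← Real.rpow_add (by linarith), ← Real.rpow_natCast]
        congr 1
        ring
      have h3 : (p : ℝ) ^ (ρ * n) * (p : ℝ) ^ ((1 - ρ) * n) ≤ (p : ℝ) ^ (ρ * n) * orderOf S :=
        mul_le_mul_of_nonneg_left hord (by positivity)
      linarith) hA hfree
    refine h1.trans (le_of_eq ?_)
    rw [← Real.rpow_mul (by linarith), mul_assoc, ← Real.rpow_add (by linarith)]
    congr 2
    field_simp
    ring

end Pool.Agent.Results.MP_b30443_co.LinearOrbits
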