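import Pool.Agent.T6.H6.LC.Rel
import Pool.Agent.Helper868.DHJ

/-!
# Progression-free sets relative to sparse sets defined by local constraints

Let `F ⊆ F_p^n` be a Boolean combination of `T` sets each of which is the set of the solutions of a
system of constraints on at most `w` coordinates (the constraints are arbitrary otherwise, and their
number is arbitrary). We prove that every set `A` without nontrivial `k`-term progressions satisfies

  `|A ∩ F| ≤ (r_k(F_p^m) / p^m) |F| + (T + 1) p^n exp (- n / (96 p² w T))`,   `m = ⌊n / (96 p² w)⌋`.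

So progression-free sets are sparse relative to all these `F`, also if `F` has only
`p^n exp (- c n / w)` elements, with the same densities as in `F_p^m`. With the density Hales-Jewett
theorem it follows that for every `δ > 0` there is `c > 0` such that every subset of `F` with at least
`δ |F|` elements contains a nontrivial `k`-term progression, if `w ≤ c n` and
`|F| ≥ p^n exp (- c n / w)`.

Proof. A random restriction leaves a random set of about `n / (12 p² w)` coordinates free and gives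
random values to the other ones. By the switching lemma for the alphabet `F_p` the restriction of `F`
is decided by a decision tree of depth `t`, except with probability `4^(-t)`. The leaves of the tree
are subcubes with at least `m` free coordinates on which `F` is constant, and `A` has density at most
`r_k(F_p^m) / p^m` on each of them.
-/

set_option autoImplicit false

namespace Pool.Agent.Results.MP_b30443_co.RelativeDensity

open Finset
open Pool.Agent.T6.H6.LC.Sw (Rst ov)
open Pool.Agent.T6.H6.LC.Rel (U b1 b1_pos b1_neg st U_eq)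

/-- `A` contains no nontrivial `k`-term progression `x, x + y, …, x + (k - 1) y`. -/
def APFree (k p n : ℕ) (A : Finset (Fin n → ZMod p)) : Prop :=
  ∀ x y : Fin n → ZMod p, (∀ j : ℕ, j < k → x + j • y ∈ A) → y = 0

/-- `F` is the set of the solutions of a system of constraints `x ∈ R a`, where `R a` depends only on
the coordinates in `S a`, and `S a` has at most `w` elements. -/
def Local {p n : ℕ} (w : ℕ) (F : Set (Fin n → ZMod p)) : Prop :=
  ∃ (ι : Type) (S : ι → Finset (Fin n)) (R : ι → Set (Fin n → ZMod p)),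
    (∀ a, (S a).card ≤ w) ∧ (∀ a x y, (∀ i ∈ S a, x i = y i) → x ∈ R a → y ∈ R a) ∧
      F = ⋂ a, R a

/-- `F` is a Boolean combination of `T` sets defined by constraints on `w` coordinates. -/
def Combination {p n : ℕ} (T w : ℕ) (F : Finset (Fin n → ZMod p)) : Prop :=
  ∃ (D : Fin T → Set (Fin n → ZMod p)) (Φ : (Fin T → Prop) → Prop),
    (∀ i, Local w (D i)) ∧ ∀ x, x ∈ F ↔ Φ (fun i => x ∈ D i)

/-- the largest size `r_k(F_p^n)` of a set without nontrivial `k`-term progressions -/
noncomputable def r (k p n : ℕ) : ℕ :=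
  sSup {c : ℕ | ∃ A : Finset (Fin n → ZMod p), APFree k p n A ∧ A.card = c}

lemma Local.lib {p n w : ℕ} {F : Set (Fin n → ZMod p)} (h : Local w F) :
    Pool.Agent.T6.H6.LC.Local w F := by
  obtain ⟨ι, S, R, hS, hR, rfl⟩ := h
  intro x hx
  rw [Set.mem_iInter] at hx
  push Not at hx
  obtain ⟨a, ha⟩ := hx
  refine ⟨S a, hS a, fun y hy => ?_⟩
  by_contra hcon
  push Not at hcon
  exact ha (hR a y x hcon (Set.mem_iInter.1 hy a))

lemma card_le {p : ℕ} (hp : p.Prime) {n : ℕ} (A : Finset (Fin n → ZMod p)) : A.card ≤ p ^ n := by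
  have : NeZero p := ⟨hp.ne_zero⟩
  have := card_le_univ A
  rwa [Fintype.card_fun, Fintype.card_fin, ZMod.card] at this

lemma le_r {k p : ℕ} (hp : p.Prime) {n : ℕ} {A : Finset (Fin n → ZMod p)} (h : APFree k p n A) :
    A.card ≤ r k p n := by
  refine le_csSup ⟨p ^ n, ?_⟩ ⟨A, h, rfl⟩
  rintro _ ⟨B, _, rfl⟩
  exact card_le hp B

/-- progression-free sets in the subcubes with at least `m` free coordinates -/
lemma slice {k p n m : ℕ} (hp : p.Prime) [NeZero p] (A : Finset (Fin n → ZMod p))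
    (hA : APFree k p n A) (ρ : Rst (Fin n) (ZMod p)) (hρ : m ≤ (st ρ).card) :
    U (fun x => b1 (ov ρ x ∈ A)) ≤ (r k p m : ℝ) / (p : ℝ) ^ m := by
  classical
  have hp0 : (0 : ℝ) < p := by exact_mod_cast hp.pos
  obtain ⟨M, hM, hMc⟩ := exists_subset_card_eq hρ
  have hMn : m ≤ n := by
    rw [← hMc]
    exact (card_le_univ M).trans (by simp)
  let e : {i // i ∈ M} ≃ Fin m := M.equivFinOfCardEq hMc
  let mg : ({i // i ∈ M} → ZMod p) → ({i // ¬ i ∈ M} → ZMod p) → Fin n → ZMod p :=
    fun y z i => if h : i ∈ M then y ⟨i, h⟩ else z ⟨i, h⟩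
  have hsum : ∑ x : Fin n → ZMod p, b1 (ov ρ x ∈ A) =
      ∑ z : {i // ¬ i ∈ M} → ZMod p, ∑ y : {i // i ∈ M} → ZMod p, b1 (ov ρ (mg y z) ∈ A) := by
    rw [← (Equiv.piEquivPiSubtypeProd (fun i : Fin n => i ∈ M) (fun _ => ZMod p)).symm.sum_comp,
      Fintype.sum_prod_type_right]
    rfl
  have hz : ∀ z : {i // ¬ i ∈ M} → ZMod p,
      ∑ y : {i // i ∈ M} → ZMod p, b1 (ov ρ (mg y z) ∈ A) ≤ (r k p m : ℝ) := by
    intro z
    set B : Finset (Fin m → ZMod p) := univ.filter (fun v => ov ρ (mg (fun i => v (e i)) z) ∈ A)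
      with hB
    have hBf : APFree k p m B := by
      intro x y h
      have h1 := hA (ov ρ (mg (fun i => x (e i)) z))
        (fun i => if h : i ∈ M then y (e ⟨i, h⟩) else 0) (fun j hj => by
        have h2 := h j hj
        rw [hB, mem_filter] at h2
        have h3 : ov ρ (mg (fun i => (x + j • y) (e i)) z) =
            ov ρ (mg (fun i => x (e i)) z) + j • (fun i => if h : i ∈ M then y (e ⟨i, h⟩) else 0) := by
          funext i
          by_cases hi : i ∈ M
          · have hρi : ρ i = none := (mem_filter.1 (hM hi)).2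
            simp [ov, mg, hi, hρi]
          · simp [ov, mg, hi]
        rw [← h3]
        exact h2.2)
      funext i
      have h4 := congrFun h1 (e.symm i : Fin n)
      have h5 : ((e.symm i : {i // i ∈ M}) : Fin n) ∈ M := (e.symm i).2
      simpa [h5] using h4
    have h6 : ∑ y : {i // i ∈ M} → ZMod p, b1 (ov ρ (mg y z) ∈ A) = (B.card : ℝ) := by
      rw [hB, card_filter]
      push_cast
      refine (Fintype.sum_equiv (Equiv.arrowCongr e (Equiv.refl (ZMod p))) _ _ fun y => ?_)
      have h7 : (fun i => (Equiv.arrowCongr e (Equiv.refl (ZMod p))) y (e i)) = y := by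
        funext i
        simp [Equiv.arrowCongr]
      rw [h7]
      unfold b1
      congr
    rw [h6]
    exact_mod_cast le_r hp hBf
  have h1 := U_eq (fun x : Fin n → ZMod p => b1 (ov ρ x ∈ A))
  rw [ZMod.card, hsum] at h1
  have h2 : ∑ z : {i // ¬ i ∈ M} → ZMod p, ∑ y : {i // i ∈ M} → ZMod p, b1 (ov ρ (mg y z) ∈ A) ≤
      (p : ℝ) ^ (n - m) * r k p m := by
    refine (sum_le_sum fun z _ => hz z).trans (le_of_eq ?_)
    rw [sum_const, card_univ, nsmul_eq_mul, Fintype.card_fun, ZMod.card, Fintype.card_subtype_compl,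
      Fintype.card_fin, Fintype.card_coe, hMc]
    push_cast
    rfl
  rw [← h1] at h2
  rw [le_div_iff₀ (by positivity)]
  have h3 : (p : ℝ) ^ n = (p : ℝ) ^ (n - m) * (p : ℝ) ^ m := by
    rw [← pow_add]
    congr 1
    omega
  rw [h3] at h2
  have h4 : (0 : ℝ) < (p : ℝ) ^ (n - m) := by positivity
  refine le_of_mul_le_mul_left ?_ h4
  linarith

theorem bound {p k n w T : ℕ} (hp : p.Prime) (hw : 1 ≤ w) (hT : 1 ≤ T)
    (F A : Finset (Fin n → ZMod p)) (hF : Combination T w F) (hA : APFree k p n A) :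
    ((A ∩ F).card : ℝ) ≤
      (r k p (n / (96 * p ^ 2 * w)) : ℝ) / (p : ℝ) ^ (n / (96 * p ^ 2 * w)) * F.card +
        (T + 1) * (p : ℝ) ^ n * Real.exp (-(n / (96 * p ^ 2 * w * T) : ℝ)) := by
  classical
  have : NeZero p := ⟨hp.ne_zero⟩
  have hp0 : (0 : ℝ) < p := by exact_mod_cast hp.pos
  obtain ⟨D, Φ, hD, hF⟩ := hF
  have h1 := Pool.Agent.T6.H6.LC.Rel.rel (Λ := ZMod p) (n := n) hT hw D (fun i => (hD i).lib) Φ
    (fun x => x ∈ A) (θ := (r k p (n / (96 * p ^ 2 * w)) : ℝ) / (p : ℝ) ^ (n / (96 * p ^ 2 * w)))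
    (by positivity) (fun ρ hρ => by
      rw [ZMod.card] at hρ
      exact slice hp A hA ρ hρ)
  rw [ZMod.card] at h1
  have h2 : U (fun x => b1 (x ∈ A ∧ Φ (fun i => x ∈ D i))) * (p : ℝ) ^ n = ((A ∩ F).card : ℝ) := by
    have := U_eq (fun x : Fin n → ZMod p => b1 (x ∈ A ∧ Φ (fun i => x ∈ D i)))
    rw [ZMod.card] at this
    rw [this]
    have h3 : A ∩ F = univ.filter (fun x => x ∈ A ∧ Φ (fun i => x ∈ D i)) := by
      ext x
      rw [mem_inter, mem_filter, hF]
      simp
    rw [h3, card_filter]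
    push_cast
    refine sum_congr rfl fun x _ => ?_
    unfold b1
    congr
  have h4 : U (fun x => b1 (Φ (fun i => x ∈ D i))) * (p : ℝ) ^ n = (F.card : ℝ) := by
    have := U_eq (fun x : Fin n → ZMod p => b1 (Φ (fun i => x ∈ D i)))
    rw [ZMod.card] at this
    rw [this]
    have h3 : F = univ.filter (fun x => Φ (fun i => x ∈ D i)) := by
      ext x
      rw [mem_filter, hF]
      simp
    rw [h3, card_filter]
    push_cast
    refine sum_congr rfl fun x _ => ?_
    unfold b1
    congr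
  rw [← h2, ← h4]
  have h5 := mul_le_mul_of_nonneg_right h1 (by positivity : (0 : ℝ) ≤ (p : ℝ) ^ n)
  refine h5.trans (le_of_eq ?_)
  ring

/-- Szemeredi's theorem for `F_p^m` -/
lemma density (k : ℕ) {p : ℕ} (hp : p.Prime) (δ : ℝ) (hδ : 0 < δ) :
    ∃ m₀ : ℕ, ∀ m : ℕ, m₀ ≤ m → (r k p m : ℝ) / (p : ℝ) ^ m ≤ δ := by
  have : NeZero p := ⟨hp.ne_zero⟩
  have : Fact p.Prime := ⟨hp⟩
  have hp0 : (0 : ℝ) < p := by exact_mod_cast hp.pos
  obtain ⟨N, hN⟩ := Pool.Agent.Helper868.DHJ.density_hales_jewett (ZMod p) δ hδ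
  refine ⟨N, fun m hm => ?_⟩
  rw [div_le_iff₀ (by positivity)]
  by_cases hne : ({c : ℕ | ∃ A : Finset (Fin m → ZMod p), APFree k p m A ∧ A.card = c}).Nonempty
  swap
  · have h0 : r k p m = 0 := by
      unfold r
      rw [Set.not_nonempty_iff_eq_empty.1 hne]
      simp
    rw [h0]
    push_cast
    positivity
  obtain ⟨A, hA, hAr⟩ := Nat.sSup_mem hne ⟨p ^ m, by
    rintro _ ⟨B, _, rfl⟩
    exact card_le hp B⟩
  have h1 := hN (Fin m) (by simpa using hm) (A : Set (Fin m → ZMod p)) (by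
    intro u hu
    by_contra hcon
    push Not at hcon
    obtain ⟨i, hi⟩ := hu
    have h2 := hA (Pool.Agent.Helper868.DHJ.pt u 0) (fun i => if u i = none then 1 else 0)
      (fun j _ => by
        have h3 := hcon (j : ZMod p)
        have h4 : Pool.Agent.Helper868.DHJ.pt u (j : ZMod p) =
            Pool.Agent.Helper868.DHJ.pt u 0 + j • (fun i => if u i = none then (1 : ZMod p) else 0) := by
          funext l
          cases hl : u l <;> simp [Pool.Agent.Helper868.DHJ.pt, hl]
        rw [← h4]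
        exact h3)
    have h5 := congrFun h2 i
    simp [hi] at h5)
  have h6 : Pool.Agent.Helper868.DHJ.dens (A : Set (Fin m → ZMod p)) = (A.card : ℝ) / (p : ℝ) ^ m := by
    classical
    unfold Pool.Agent.Helper868.DHJ.dens
    rw [Pool.Agent.Helper868.DHJ.av_eq_sum]
    have h7 : ∑ x : Fin m → ZMod p, Pool.Agent.Helper868.DHJ.ind (A : Set (Fin m → ZMod p)) x =
        (A.card : ℝ) := by
      have : ∀ x : Fin m → ZMod p, Pool.Agent.Helper868.DHJ.ind (A : Set (Fin m → ZMod p)) x =
          if x ∈ A then 1 else 0 := by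
        intro x
        by_cases hx : x ∈ A
        · rw [Pool.Agent.Helper868.DHJ.ind_mem (by exact_mod_cast hx), if_pos hx]
        · rw [Pool.Agent.Helper868.DHJ.ind_not_mem (by exact_mod_cast hx), if_neg hx]
      simp only [this]
      simp
    rw [h7]
    simp [ZMod.card]
  rw [h6, div_lt_iff₀ (by positivity)] at h1
  unfold r
  rw [← hAr]
  exact h1.le

theorem relative {p k T : ℕ} (hp : p.Prime) (hT : 1 ≤ T) (δ : ℝ) (hδ : 0 < δ) :
    ∃ c : ℝ, 0 < c ∧ ∀ (n w : ℕ) (F A : Finset (Fin n → ZMod p)), 1 ≤ w → (w : ℝ) ≤ c * n →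
      Combination T w F → (p : ℝ) ^ n * Real.exp (-(c * n / w)) ≤ F.card → A ⊆ F →
        δ * F.card ≤ A.card → ¬ APFree k p n A := by
  have hp0 : (0 : ℝ) < p := by exact_mod_cast hp.pos
  have hTr : (1 : ℝ) ≤ T := by exact_mod_cast hT
  obtain ⟨m₀, hm₀⟩ := density k hp (δ / 2) (by linarith)
  set K₀ : ℝ := 192 * p ^ 2 * T with hK₀
  have hK0 : 0 < K₀ := by positivity
  set X : ℝ := m₀ + 1 + 2 * (T + 1) / δ with hX
  have hX1 : 1 ≤ X := by
    have : (0 : ℝ) ≤ 2 * (T + 1) / δ := by positivity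
    have : (0 : ℝ) ≤ m₀ := by positivity
    linarith
  refine ⟨1 / (K₀ * X), by positivity, ?_⟩
  intro n w F A hw hwn hF hFc hAF hδA hA
  have hwr : (1 : ℝ) ≤ w := by exact_mod_cast hw
  -- `n` is large
  have hn : X ≤ n / (K₀ * w) := by
    rw [le_div_iff₀ (by positivity)]
    have h1 : (w : ℝ) * (K₀ * X) ≤ n := by
      rw [div_mul_eq_mul_div, one_mul, le_div_iff₀ (by positivity)] at hwn
      exact hwn
    linarith
  have hm : m₀ ≤ n / (96 * p ^ 2 * w) := by
    have hpos : 0 < 96 * p ^ 2 * w := by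
      have : 0 < p ^ 2 * w := Nat.mul_pos (pow_pos hp.pos 2) (by omega)
      rw [mul_assoc]
      omega
    rw [Nat.le_div_iff_mul_le hpos]
    have h1 : (m₀ : ℝ) * (96 * p ^ 2 * w) ≤ n := by
      have h2 : (m₀ : ℝ) ≤ n / (K₀ * w) := by
        have : (0 : ℝ) ≤ 2 * (T + 1) / δ := by positivity
        linarith
      rw [le_div_iff₀ (by positivity)] at h2
      refine le_trans ?_ h2
      refine mul_le_mul_of_nonneg_left ?_ (by positivity)
      rw [hK₀]
      have h3 : (0 : ℝ) ≤ (p : ℝ) ^ 2 * w := by positivity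
      nlinarith
    exact_mod_cast h1
  have h1 := bound hp hw hT F A hF hA
  rw [inter_eq_left.2 hAF] at h1
  have h2 : (r k p (n / (96 * p ^ 2 * w)) : ℝ) / (p : ℝ) ^ (n / (96 * p ^ 2 * w)) * F.card ≤
      δ / 2 * F.card := mul_le_mul_of_nonneg_right (hm₀ _ hm) (by positivity)
  have h3 : δ / 2 * F.card ≤ (T + 1) * (p : ℝ) ^ n * Real.exp (-(n / (96 * p ^ 2 * w * T) : ℝ)) := by
    linarith
  set Y : ℝ := n / (K₀ * w) with hY
  have e1 : (n : ℝ) / (96 * p ^ 2 * w * T) = 2 * Y := by
    rw [hY, hK₀]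
    have : (p : ℝ) ≠ 0 := hp0.ne'
    have : (w : ℝ) ≠ 0 := by positivity
    have : (T : ℝ) ≠ 0 := by positivity
    field_simp
    ring
  have e2 : 1 / (K₀ * X) * n / w ≤ Y := by
    have e3 : 1 / (K₀ * X) * n / w = Y / X := by
      rw [hY]
      have : (w : ℝ) ≠ 0 := by positivity
      field_simp
    rw [e3]
    exact div_le_self (by positivity) hX1
  have h4 : (p : ℝ) ^ n * Real.exp (-Y) ≤ F.card := by
    refine le_trans ?_ hFc
    refine mul_le_mul_of_nonneg_left (Real.exp_le_exp.2 (by linarith)) (by positivity)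
  rw [e1] at h3
  have hpn : (0 : ℝ) < (p : ℝ) ^ n := by positivity
  have h5 : δ / 2 * ((p : ℝ) ^ n * Real.exp (-Y)) ≤ (T + 1) * (p : ℝ) ^ n * Real.exp (-(2 * Y)) :=
    (mul_le_mul_of_nonneg_left h4 (by linarith)).trans h3
  have h6 : Real.exp (-(2 * Y)) = Real.exp (-Y) * Real.exp (-Y) := by
    rw [← Real.exp_add]
    congr 1
    ring
  rw [h6] at h5
  have h7 : δ / 2 ≤ (T + 1) * Real.exp (-Y) := by
    have h8 : (0 : ℝ) < (p : ℝ) ^ n * Real.exp (-Y) := mul_pos hpn (Real.exp_pos _)
    refine le_of_mul_le_mul_right ?_ h8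
    linarith
  have h8 : Real.exp Y ≤ 2 * (T + 1) / δ := by
    rw [le_div_iff₀ hδ]
    have h9 : Real.exp Y * Real.exp (-Y) = 1 := by
      rw [← Real.exp_add]
      simp
    have h10 := mul_le_mul_of_nonneg_left h7 (Real.exp_pos Y).le
    have h11 : Real.exp Y * ((T + 1) * Real.exp (-Y)) = T + 1 := by
      calc Real.exp Y * ((T + 1) * Real.exp (-Y)) = (T + 1) * (Real.exp Y * Real.exp (-Y)) := by ring
        _ = T + 1 := by rw [h9, mul_one]
    rw [h11] at h10
    linarith
  have h9 := Real.add_one_le_exp Y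
  have : (0 : ℝ) ≤ m₀ := by positivity
  linarith

/-- (1) Let `p` be a prime and `F ⊆ F_p^n` a Boolean combination of `T` sets defined by arbitrary
systems of constraints on `w` coordinates, `m = ⌊n / (96 p² w)⌋`. Then
`|A ∩ F| ≤ (r_k(F_p^m) / p^m) |F| + (T + 1) p^n exp (- n / (96 p² w T))` for all sets `A` without
nontrivial `k`-term progressions.
(2) For all `k`, `T` and `δ > 0` there is `c > 0` such that for all `w ≤ c n` and all such `F` with at
least `p^n exp (- c n / w)` elements, every `A ⊆ F` with at least `δ |F|` elements contains a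
nontrivial `k`-term progression. -/
theorem result :
    (∀ p k n w T : ℕ, p.Prime → 1 ≤ w → 1 ≤ T → ∀ F A : Finset (Fin n → ZMod p),
      Combination T w F → APFree k p n A →
        ((A ∩ F).card : ℝ) ≤
          (r k p (n / (96 * p ^ 2 * w)) : ℝ) / (p : ℝ) ^ (n / (96 * p ^ 2 * w)) * F.card +
            (T + 1) * (p : ℝ) ^ n * Real.exp (-(n / (96 * p ^ 2 * w * T) : ℝ))) ∧
    (∀ p k T : ℕ, p.Prime → 1 ≤ T → ∀ δ : ℝ, 0 < δ → ∃ c : ℝ, 0 < c ∧
      ∀ (n w : ℕ) (F A : Finset (Fin n → ZMod p)), 1 ≤ w → (w : ℝ) ≤ c * n →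
        Combination T w F → (p : ℝ) ^ n * Real.exp (-(c * n / w)) ≤ F.card → A ⊆ F →
          δ * F.card ≤ A.card →
            ∃ x y : Fin n → ZMod p, y ≠ 0 ∧ ∀ j : ℕ, j < k → x + j • y ∈ A) := by
  refine ⟨fun p k n w T hp hw hT F A hF hA => bound hp hw hT F A hF hA, ?_⟩
  intro p k T hp hT δ hδ
  obtain ⟨c, hc, h⟩ := relative (k := k) hp hT δ hδ
  refine ⟨c, hc, fun n w F A hw hwn hF hFc hAF hδA => ?_⟩
  have h1 := h n w F A hw hwn hF hFc hAF hδA
  unfold APFree at h1
  push Not at h1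
  obtain ⟨x, y, h2, h3⟩ := h1
  exact ⟨x, y, h3, h2⟩

end Pool.Agent.Results.MP_b30443_co.RelativeDensity
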